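import Pool.Agent.H93.SC.Main

/-!
# The regular cardinals of HOD below a regular cardinal of HOD

The universe of sets is `ZFSet.{u}`. The definitions of `HOD`, `HODReg` and `Club` are those of the
library module `Results.MP_e37c09_lc.AlternativeA` and the modules it imports. `Cf μ α` (file
`Pool/Agent/H93/HM/Cof.lean`) says that the cofinality of `α` is `μ`, `Rg ν` that `ν` is an infinite
regular cardinal, and `SCf l ν` is the set of the ordinals below `l` of cofinality `ν`. `DisjFam k l S g`
(file `Pool/Agent/H93/HM/Atom.lean`) says that `g` is a sequence of length `k` of pairwise disjoint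
stationary subsets of `l`, contained in `S`. `Block` is in `Pool/Agent/H93/SC/Def.lean`.

Let `l` be regular in HOD and let its cofinality `μ` be uncountable. Then
* the ordinals below `l` which are regular in HOD contain a closed unbounded subset of `l`; or
* `|l| = μ` and there is in HOD a sequence of length `l` of pairwise disjoint stationary subsets of
  `cof(ω) ∩ l`; or
* there is `θ < l` of cofinality `μ` such that all regular cardinals of HOD between `θ` and `l` have
  cofinality `μ` and such that, for `ν = ω` and, if `μ < |l|`, for every regular `ν < μ`, `θ` is a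
  limit of regular cardinals of HOD of cofinality `ν`.
-/

set_option autoImplicit false

universe u

namespace Pool.Agent.Results.MP_ecfd11_lc.ClubOrBlock

open ZFSet Gss969 Pool.Agent.H310.HD Pool.Agent.H93.HM Pool.Agent.H93.SC

theorem result (l μ : Ordinal.{u}) (hreg : HODReg l) (hcf : Cf μ.toZFSet l.toZFSet)
    (hω : Ordinal.omega0 < μ) :
    (∃ C, C ⊆ l.toZFSet ∧ Club C l.toZFSet ∧ ∀ α : Ordinal.{u}, α.toZFSet ∈ C → HODReg α) ∨
    (l.card = μ.card ∧
      ∃ g, HOD g ∧ DisjFam l.toZFSet l.toZFSet (SCf l.toZFSet Ordinal.omega0.toZFSet) g) ∨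
    ∃ θ < l, Block Ordinal.omega0 μ θ l ∧
      (μ.card < l.card → ∀ ν < μ, Rg ν → Block ν μ θ l) := by
  by_cases hc : μ.card < l.card
  · rcases dichotomy_card hreg hcf hω hc with h | ⟨θ, hθ, h⟩
    · exact Or.inl h
    · exact Or.inr (Or.inr ⟨θ, hθ, h _ hω rg_omega0, fun _ => h⟩)
  · rcases trichotomy' hreg hcf hω with h | h | ⟨θ, hθ, h⟩
    · exact Or.inl h
    · exact Or.inr (Or.inl h)
    · exact Or.inr (Or.inr ⟨θ, hθ, h, fun h1 => absurd h1 hc⟩)

end Pool.Agent.Results.MP_ecfd11_lc.ClubOrBlock
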