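import Pool.Agent.H93.HM.Loc

/-!
# Strongly measurable cardinals for several cofinalities and the Mitchell order of `HOD`

The universe of sets is `ZFSet.{u}`; `HOD`, `RegUnc` (regular uncountable), `StatL` (stationary) and
`FewSub` are the library's (`H310/HD`). The other definitions are `Cf` (cofinality, in `HM/Cof.lean`),
`NormU` (normal measures of `HOD`, in `HM/Msr.lean`), `MLt`, `MRank` (the Mitchell order of `HOD`, in
`HM/Mit.lean`) and `PartCf`, `StrM` (`μ`-strongly measurable cardinals, in `HM/Loc.lean`).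

A regular cardinal `κ` is `μ`-strongly measurable in `HOD` if there is `k < κ` such that
`(2 ^ k)^HOD < κ` and no sequence of length `k` in `HOD` partitions `cof(μ) ∩ κ` into stationary
subsets of `κ`; for `μ = ω` this is Woodin's notion. Let `κ` be `μ i`-strongly measurable with the
witness `k i` for all `i < ξ`, where `μ i` increases and `k i ≤ μ j` for `i < j`. Then
for all `i < ξ` and `X ⊆ κ` in `HOD`, if `X ∩ cof(μ i)` is stationary then it belongs to a normal measure
of `HOD` on `κ` which has rank at least `i` in the Mitchell order of `HOD`. So `o(κ) ≥ ξ` in `HOD`.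
For example, if `κ` is weakly inaccessible and `μ`-strongly measurable for all regular `μ < κ`, then
`o(κ) ≥ κ` in `HOD`.

The proof. `HOD` has canonical choices of definable sets (`exists_ch`), so `cof(μ) ∩ κ` is up to a
nonstationary set the union of less than `k` sets in `HOD` which cannot be split (`decompose2`).
The closed unbounded filter gives normal measures of `HOD` on these atoms (`Atom.normU`). An atom of
cofinality `μ j` has stationary many elements `α` such that a fixed atom of cofinality `μ i` is
stationary in `α`, and then the measures are ordered by `mlt_uf`.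
-/

set_option autoImplicit false

namespace Pool.Agent.Results.MP_ecfd11_lc.SeveralCofinalities

open Pool.Agent.H93.HM Pool.Agent.H310.HD Gss969 ZFSet

universe u

/-- **Main theorem.** -/
theorem result (κ ξ : Ordinal.{u}) (hκ : RegUnc κ.toZFSet) (μ : Ordinal.{u} → Cardinal.{u})
    (k : Ordinal.{u} → Ordinal.{u})
    (h1 : ∀ i < ξ, (μ i).IsRegular ∧ (μ i).ord < κ ∧ StrM (μ i).ord (k i) κ)
    (h2 : ∀ i j, i < j → j < ξ → μ i < μ j ∧ k i ≤ (μ j).ord) :
    ∀ i < ξ, ∀ X, HOD X → X ⊆ κ.toZFSet →
      StatL {α | α.toZFSet ∈ X ∧ Cf (μ i).ord.toZFSet α.toZFSet} κ →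
      ∃ U, MRank κ i U ∧
        ZFSet.sep (fun a => a ∈ X ∧ Cf (μ i).ord.toZFSet a) κ.toZFSet ∈ U := by
  have hreg : ∀ c : Cardinal.{u}, c.IsRegular → Rg c.ord := by
    intro c hc
    rcases hc.aleph0_le.lt_or_eq with h | h
    · exact RegUnc.rg (regUnc_ord hc h)
    · rw [← h, Cardinal.ord_aleph0]
      exact rg_omega0
  intro i hi X hX hXκ hst
  obtain ⟨A, hA, hAS, hXA⟩ := exists_mem_uf hκ (h1 i hi).2.2 hX hXκ hst
  refine ⟨uf κ A, ?_, hXA⟩
  exact mrank_loc hκ (ξ := ξ) (μ := fun i => (μ i).ord) (k := k)
    (fun i hi => ⟨hreg _ (h1 i hi).1, (h1 i hi).2.1, (h1 i hi).2.2⟩)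
    (fun i j hij hj => ⟨Cardinal.ord_lt_ord.2 (h2 i j hij hj).1, (h2 i j hij hj).2⟩) i hi A hA hAS

end Pool.Agent.Results.MP_ecfd11_lc.SeveralCofinalities
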