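import Pool.Agent.H93.SV.Fin

/-!
# A theorem of Silver's type on the successors of cardinals in HOD

The universe of sets is `ZFSet.{u}`. The definitions of `HOD`, `HODReg`, `IsCard`, `Club` and
`NotStrMeas` (regular uncountable and not `ω`-strongly measurable in HOD) are those of the library
module `Results.MP_e37c09_lc.AlternativeA` and the modules it imports. `Cf μ α` (file
`Pool/Agent/H93/HM/Cof.lean`) says that the cofinality of `α` is `μ`, and `HSucc γ l` (file
`Pool/Agent/H93/SC/Def.lean`) that `l` is the least regular cardinal of HOD above `γ`; we write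
`s(γ)` for it.

Let `κ` be a singular cardinal of uncountable cofinality `μ`. Then `s(κ)` behaves like `s(δ)` for
almost all `δ < κ`: one of the following three statements holds.

1. `s(κ) = κ⁺` is not `ω`-strongly measurable in HOD, and for `δ` in a closed unbounded subset of
   `κ` `s(δ) = |δ|⁺` is not `ω`-strongly measurable in HOD.
2. `s(κ)` has cofinality `ω`, and so has `s(δ)` for `δ` in a closed unbounded subset of `κ`.
3. `s(κ)` has the cofinality of `κ`, and `s(δ)` has the cofinality of `δ` for `δ` in a closed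
   unbounded subset of `κ`.
-/

set_option autoImplicit false

universe u

namespace Pool.Agent.Results.MP_ecfd11_lc.SilverTrichotomy

open ZFSet Gss969 Pool.Agent.H310.HD Pool.Agent.H93.HM Pool.Agent.H93.SC

theorem result (κ μ η : Ordinal.{u}) (hκ : IsCard κ.toZFSet) (hcf : Cf μ.toZFSet κ.toZFSet)
    (hω : Ordinal.omega0 < μ) (hμκ : μ < κ) (hη : HSucc κ η) :
    (η = (Order.succ κ.card).ord ∧ (∀ b : Bool, NotStrMeas b η) ∧
      ∃ C, C ⊆ κ.toZFSet ∧ Club C κ.toZFSet ∧ ∀ δ s : Ordinal.{u}, δ.toZFSet ∈ C →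
        HSucc δ s → s = (Order.succ δ.card).ord ∧ ∀ b : Bool, NotStrMeas b s) ∨
    (Cf Ordinal.omega0.toZFSet η.toZFSet ∧
      ∃ C, C ⊆ κ.toZFSet ∧ Club C κ.toZFSet ∧ ∀ δ s : Ordinal.{u}, δ.toZFSet ∈ C →
        HSucc δ s → Cf Ordinal.omega0.toZFSet s.toZFSet) ∨
    (Cf μ.toZFSet η.toZFSet ∧
      ∃ C, C ⊆ κ.toZFSet ∧ Club C κ.toZFSet ∧ ∀ δ s : Ordinal.{u}, δ.toZFSet ∈ C →
        HSucc δ s → ∀ θ : Ordinal.{u}, Cf θ.toZFSet δ.toZFSet ↔ Cf θ.toZFSet s.toZFSet) :=
  Pool.Agent.H93.SV.silver hκ hcf hω hμκ hη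

end Pool.Agent.Results.MP_ecfd11_lc.SilverTrichotomy
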