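import Pool.Agent.H93.SC.Main

/-!
# The cofinality of the successor of a cardinal in HOD

The universe of sets is `ZFSet.{u}`. The definitions of `HOD`, `HODReg`, `IsCard` and `NotStrMeas`
(regular uncountable and not `ω`-strongly measurable in HOD) are those of the library module
`Results.MP_e37c09_lc.AlternativeA` and the modules it imports. `Cf μ α` (file
`Pool/Agent/H93/HM/Cof.lean`) says that the cofinality of `α` is `μ`, and `HSucc γ l` (file
`Pool/Agent/H93/SC/Def.lean`) that `l` is the least regular cardinal of HOD above `γ`.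

Let `l` be the least regular cardinal of HOD above `γ`, and assume that its cofinality `μ` is not `ω`. If
`γ` is an infinite cardinal then `l = γ⁺`, and `l` is not `ω`-strongly measurable in HOD, or `μ` is the
cofinality of `γ`. If `γ` is regular in HOD then `|l| = μ` or `μ` is the cofinality of `γ`.
-/

set_option autoImplicit false

universe u

namespace Pool.Agent.Results.MP_ecfd11_lc.SuccessorCofinality

open ZFSet Gss969 Pool.Agent.H310.HD Pool.Agent.H93.HM Pool.Agent.H93.SC

theorem result (γ l μ : Ordinal.{u}) (hs : HSucc γ l) (hcf : Cf μ.toZFSet l.toZFSet)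
    (hμ : μ ≠ Ordinal.omega0) :
    (Ordinal.omega0 ≤ γ → IsCard γ.toZFSet →
      (l = (Order.succ γ.card).ord ∧ ∀ b : Bool, NotStrMeas b l) ∨ Cf μ.toZFSet γ.toZFSet) ∧
    (HODReg γ → l.card = μ.card ∨ Cf μ.toZFSet γ.toZFSet) := by
  have hω : Ordinal.omega0 < μ := lt_of_le_of_ne (Cf.om_le (bot_le.trans_lt hs.1) hcf)
    (Ne.symm hμ)
  refine ⟨fun hγω hγ => ?_, fun hγ => ?_⟩
  · by_cases hn : Cf μ.toZFSet γ.toZFSet
    · exact Or.inr hn
    · refine Or.inl ⟨?_, fun b => notStrMeas_succ hγω hγ hs hcf hμ hn b⟩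
      rcases succ_cof hγω hγ hs hcf with h | h | h
      · exact h
      · exact absurd h hμ
      · exact absurd h hn
  · rcases gap hs.2.1 hcf hω rg_omega0 hω hs.1 with h | ⟨b, h1, h2, h3, _⟩ | ⟨h, _⟩
    · exact Or.inr (h γ le_rfl hs.1.le hγ)
    · exact absurd h3 (hs.2.2 b h1 h2)
    · exact Or.inl h

end Pool.Agent.Results.MP_ecfd11_lc.SuccessorCofinality
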